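import Pool.Agent.PXE.Stmts

/-!
# Squad PXE, row EIS (helper77): `α X^a + β Y^b + γ Z^c` is irreducible
-/

set_option autoImplicit false

namespace Pool.Agent.PXE.H77

open Polynomial

variable {K : Type} [Field K] [CharZero K]

/-- the polynomial in two variables -/
theorem sq_free (β γ : K) (b c : ℕ) (hβ : β ≠ 0) (hγ : γ ≠ 0) (hb : 0 < b) :
    ∃ p : K[X][X], Prime p ∧ p ∣ (C (C β) * X ^ b + C (C γ * X ^ c)) ∧
      ¬ p ^ 2 ∣ (C (C β) * X ^ b + C (C γ * X ^ c)) := by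
  have hCβ : (C β : K[X]) ≠ 0 := C_ne_zero.2 hβ
  have hdeg : (C (C β) * X ^ b + C (C γ * X ^ c) : K[X][X]).natDegree = b := by
    rw [natDegree_add_C, natDegree_C_mul_X_pow b _ hCβ]
  have hc0 : (C (C β) * X ^ b + C (C γ * X ^ c) : K[X][X]).coeff 0 ≠ 0 := by
    rw [coeff_add, coeff_C_mul_X_pow, if_neg hb.ne, zero_add, coeff_C_zero]
    exact mul_ne_zero (C_ne_zero.2 hγ) (pow_ne_zero _ X_ne_zero)
  have hne : (C (C β) * X ^ b + C (C γ * X ^ c) : K[X][X]) ≠ 0 := by
    intro h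
    rw [h] at hc0
    exact hc0 (coeff_zero 0)
  have hnu : ¬ IsUnit (C (C β) * X ^ b + C (C γ * X ^ c) : K[X][X]) := by
    intro h
    have := natDegree_eq_zero_of_isUnit h
    omega
  obtain ⟨p, hp, hpd⟩ := WfDvdMonoid.exists_irreducible_factor hnu hne
  refine ⟨p, hp.prime, hpd, ?_⟩
  rintro ⟨q, hq⟩
  have h1 : p ∣ derivative (C (C β) * X ^ b + C (C γ * X ^ c) : K[X][X]) := by
    rw [hq, derivative_mul, derivative_pow]
    refine dvd_add ?_ ?_
    · refine Dvd.dvd.mul_right (Dvd.dvd.mul_right (Dvd.dvd.mul_left ?_ _) _) _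
      rw [show (2 - 1 : ℕ) = 1 from rfl, pow_one]
    · exact Dvd.dvd.mul_right (dvd_pow_self p two_ne_zero) _
  rw [derivative_add, derivative_C, add_zero, derivative_C_mul_X_pow] at h1
  have hu : IsUnit (C (C β * (b : K[X])) : K[X][X]) := by
    rw [← C_eq_natCast, ← C_mul]
    apply IsUnit.map C
    apply IsUnit.map C
    exact (mul_ne_zero hβ (Nat.cast_ne_zero.2 hb.ne')).isUnit
  have h2 : p ∣ X ^ (b - 1) := by
    rcases hp.prime.dvd_or_dvd h1 with h | h
    · exact (hp.not_isUnit (isUnit_of_dvd_unit h hu)).elim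
    · exact h
  have h3 : p ∣ X := hp.prime.dvd_of_dvd_pow h2
  have h4 : X ∣ p := hp.dvd_symm irreducible_X h3
  exact hc0 (X_dvd_iff.1 (h4.trans hpd))

/-- EIS -/
theorem eis : EisStmt := by
  intro K _ _ α β γ a b c hα hβ hγ ha hb hc
  obtain ⟨p, hp, hpd, hpn⟩ := sq_free β γ b c hβ hγ hb
  generalize hδ : (C (C β) * X ^ b + C (C γ * X ^ c) : K[X][X]) = δ at hpd hpn
  have hCα : (C (C α) : K[X][X]) ≠ 0 := C_ne_zero.2 (C_ne_zero.2 hα)
  have hu : IsUnit (C (C α) : K[X][X]) := (hα.isUnit.map C).map C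
  have hdeg : (C (C (C α)) * X ^ a + C δ : K[X][X][X]).natDegree = a := by
    rw [natDegree_add_C, natDegree_C_mul_X_pow a _ hCα]
  have hlc : (C (C (C α)) * X ^ a + C δ : K[X][X][X]).coeff a = C (C α) := by
    rw [coeff_add, coeff_C_mul_X_pow, if_pos rfl, coeff_C_of_ne_zero ha.ne', add_zero]
  have hP : (Ideal.span {p}).IsPrime := (Ideal.span_singleton_prime hp.ne_zero).2 hp
  refine irreducible_of_eisenstein_criterion hP ?_ ?_ ?_ ?_ ?_
  · rw [leadingCoeff, hdeg, hlc]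
    intro h
    exact hP.ne_top (Ideal.eq_top_of_isUnit_mem _ h hu)
  · intro n hn
    have hn' : n < a := by
      by_contra h
      rw [not_lt] at h
      have h1 : (C (C (C α)) * X ^ a + C δ : K[X][X][X]).degree ≤ n :=
        natDegree_le_iff_degree_le.1 (hdeg.le.trans h)
      exact absurd hn (not_lt.2 h1)
    rw [coeff_add, coeff_C_mul_X_pow, if_neg hn'.ne, zero_add]
    rcases Nat.eq_zero_or_pos n with h | h
    · rw [h, coeff_C_zero]
      exact Ideal.mem_span_singleton.2 hpd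
    · rw [coeff_C_of_ne_zero h.ne']
      exact Ideal.zero_mem _
  · rw [← natDegree_pos_iff_degree_pos, hdeg]
    exact ha
  · rw [coeff_add, coeff_C_mul_X_pow, if_neg ha.ne, zero_add, coeff_C_zero,
      Ideal.span_singleton_pow, Ideal.mem_span_singleton]
    exact hpn
  · intro r hr
    have h1 := (C_dvd_iff_dvd_coeff r _).1 hr a
    rw [hlc] at h1
    exact isUnit_of_dvd_unit h1 hu

end Pool.Agent.PXE.H77
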